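import Pool.Agent.Work.MP_c264fd_rough.Process

/-!
# Every stationary law of one-dimensional ballistic deposition is rough

The definitions used by the statement (`Config`, `IsStationary`) are in
`Pool/Agent/Work/MP_c264fd_pr_h14/Defs.lean`; they are those of `TiltedStationaryDeposition`.

Outline of the proof.  In a large box, given the number of rings, the sites of the rings are
independent and uniform.  Let `Z = h(0) - h(x)` (truncated to the window), and correlate it with
`S = ∑ u_i(y_i)`, where `y_i` is the site of the ring with `i` later rings and
`u_i = 1_B / |B| - 1 / N`, with an interval `B` around `0` of radius proportional to the remaining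
time (`log |x|` scales).  One more ring in `B` can only increase `Z`, one more ring far from `0` can
only decrease it, and some site of `B` increases it by at least `1` (last passage representation), so
that `E Z S ≥ c (log |x|) P(Z in the window) - C`, while `E S² ≤ C log |x|`.  All this is uniform in
the initial condition, hence holds for every stationary law.
-/

namespace Pool.Agent.Results.MP_c264fd_pr.EveryStationaryLawIsRough

open MeasureTheory Pool.BDep

/-- There is a constant `C` such that for every stationary distribution `μ` of the recentred
one-dimensional ballistic deposition process (no moment or symmetry assumption), every `x` with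
`|x| ≥ 2` and every window `{a, ..., a + M}`,
`μ (a ≤ g(x) ≤ a + M) ≤ C (M + 1) / √(log |x|)`. -/
theorem result :
    ∃ C : ℝ, 0 < C ∧ ∀ μ : Measure Config, IsStationary μ →
      ∀ (x : ℤ) (a : ℤ) (M : ℕ), 2 ≤ |x| →
        μ {g | a ≤ g x ∧ g x ≤ a + M}
          ≤ ENNReal.ofReal (C * (M + 1) / Real.sqrt (Real.log |(x : ℝ)|)) :=
  ⟨60, by norm_num, Rough.stationaryRough⟩

end Pool.Agent.Results.MP_c264fd_pr.EveryStationaryLawIsRough
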