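import Pool.Agent.Work.MP_c264fd_sync.Final

/-!
# All stationary laws of one-dimensional ballistic deposition charge all local patterns

The definitions used by the statement (`Config`, `IsStationary`) are in
`Pool/Agent/Work/MP_c264fd_pr_h14/Defs.lean`; they are those of `TiltedStationaryDeposition`.

Outline of the proof.  There is a finite sequence of rings in the interval `[a, b]` which produces
the pattern `p` in `[a, b]` from every configuration: rings at `b, b - 1, ..., a + 1, a, a` make the
height at `a` larger than all other heights in `[a - 1, b + 1]`, then rings at `a + 1, ..., b` make
the interval exactly flat, and then `p` is grown one by one, a new top site at each ring.  In unit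
time slots the clocks follow this sequence (and the two neighbours of the interval do not ring) with
a probability which depends only on the length of the interval and of the sequence.
-/

set_option autoImplicit false

namespace Pool.Agent.Results.MP_c264fd_pr.FullLocalSupport

open MeasureTheory Pool.BDep

/-- For every finite pattern `p` (`p(0) = 0`, window `[-N, N]`) there is a constant `c > 0` such that
every stationary distribution `μ` of the recentred one-dimensional ballistic deposition process sees
the pattern at every place `x₀` with probability at least `c`. -/
theorem result :
    ∀ (N : ℕ) (p : ℤ → ℤ), p 0 = 0 →
      ∃ c : ℝ, 0 < c ∧ ∀ μ : Measure Config, IsStationary μ → ∀ x₀ : ℤ,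
        ENNReal.ofReal c ≤ μ {g | ∀ x : ℤ, |x| ≤ N → g (x₀ + x) - g x₀ = p x} :=
  fun N p hp => Sync.full N p hp

end Pool.Agent.Results.MP_c264fd_pr.FullLocalSupport
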