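import Pool.Agent.Work.MP_c264fd_pr_h14.Final

/-!
# A stationary law of one-dimensional ballistic deposition with a non-degenerate scaling limit

All the definitions used by the statement are in `Pool/Agent/Work/MP_c264fd_pr_h14/Defs.lean`.

Outline of the proof.  Start the process from `h(x) = x`, average the laws of the recentred process
over long times and pass to a limit `μ` (the gradients are translation invariant with mean one and
tight).  If the mean slope of `μ` were zero, then the mean growth from the profile `x` would exceed
the mean growth from the flat profile by at least `1` per unit of time.  This is excluded by two
numerical inequalities for the last passage times of the dual process: growth from the profile `x`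
is at most `2.9128` (exponential functional `∑ q^(y+K(y)) F(window of K around y)`, a supermartingale
by a table of 2501 windows checked by the kernel) and growth from the flat profile is at least
`1.9174` (a window policy with a table of 1722 profiles, checked by the kernel).  The mean ergodic
theorem gives `g(n)/n → U` in law with `E U ≠ 0`, and the symmetrisation of `μ` (or of its
reflection) has the required scaling limit, with `α = 1`.
-/

namespace Pool.Agent.Results.MP_c264fd_pr.TiltedStationaryDeposition

open MeasureTheory Pool.BDep

/-- Ballistic deposition on `ℤ` exists from every initial law; there is a stationary distribution
`μ₁` (of the recentred process) with strictly positive mean slope, its symmetrisation is again a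
stationary distribution, invariant under `x ↦ -x`, and under this symmetrisation `g(x)/|x|`
converges in law as `|x| → ∞` to a probability measure other than the point mass at `0`. -/
theorem result :
    ProcessExists ∧
    ∃ μ₁ : Measure Config, IsNiceStationary μ₁ ∧ 0 < ∫ g, (g 1 : ℝ) ∂μ₁ ∧
      IsNiceStationary (symmetrised μ₁) ∧
      (symmetrised μ₁).map (fun (g : Config) (x : ℤ) => g (-x)) = symmetrised μ₁ ∧
      ∃ ν : Measure ℝ, IsProbabilityMeasure ν ∧ ν ≠ Measure.dirac 0 ∧
        ScalesTo (symmetrised μ₁) 1 ν :=
  main_statement

end Pool.Agent.Results.MP_c264fd_pr.TiltedStationaryDeposition
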