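import Pool.Agent.Work.MP_c264fd_tight.Final

/-!
# A bound for all stationary laws of one-dimensional ballistic deposition

The definitions used by the statement (`Config`, `IsStationary`) are in
`Pool/Agent/Work/MP_c264fd_pr_h14/Defs.lean`; they are those of `TiltedStationaryDeposition`.

Outline of the proof.  The sites which can influence `(z, t)` backward in time form an interval, and
the ends of the intervals of two sites perform coalescing random walks; the probability that they
have not met during a time `s` is at most a constant times `d / √s` (first, second and third moments
of the distance and the Cauchy-Schwarz inequality).  If they have met on both sides, then the heights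
differ by at most the gain of a path during the time `s`, which is at most `10 s` up to an
exponentially small probability.  All this is uniform in the configuration at time `t - s`.
-/

namespace Pool.Agent.Results.MP_c264fd_pr.UniversalTightness

open MeasureTheory Pool.BDep

/-- There is a constant `C` such that for every stationary distribution `μ` of the recentred
one-dimensional ballistic deposition process (no moment or symmetry assumption), all `R ≥ 1` and
`u ≥ 1`: `μ (max over |z| ≤ R of |g(z)| > u) ≤ C R / √u`. -/
theorem result :
    ∃ C : ℝ, 0 < C ∧ ∀ μ : Measure Config, IsStationary μ → ∀ R u : ℕ, 1 ≤ R → 1 ≤ u →
      μ {g | ∃ z : ℤ, |z| ≤ R ∧ (u : ℤ) < |g z|} ≤ ENNReal.ofReal (C * R / Real.sqrt u) :=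
  ⟨60, by norm_num, fun μ hμ R u hR hu => Rough.stationary_tight μ hμ R u hR hu⟩

end Pool.Agent.Results.MP_c264fd_pr.UniversalTightness
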